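import Pool.Agent.R995.BU.Stm

/-! # Project BU, piece AI: the letters are isometries -/

set_option autoImplicit false

namespace Pool.Agent.R995.BU

theorem t_AI (hR : StmRHO) (hP : StmPI) : StmAI := by
  obtain ⟨_, hR2, _, _, _⟩ := hR
  obtain ⟨_, hP2, _⟩ := hP
  intro i l c d hi hVc hVd hAc hAd n
  induction n with
  | zero =>
    intro _
    exact ⟨fun _ s hs => absurd hs (Nat.not_lt_zero s), fun _ s hs => absurd hs (Nat.not_lt_zero s)⟩
  | succ n ih =>
    intro hn
    have hn' : n < l := hn
    have ih' := ih hn'.le
    constructor
    · intro h
      have h1 : Agr n (A i c) (A i d) := fun s hs => h s (by omega)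
      have h2 : Agr n c d := ih'.mp h1
      have h3 : rho c n = rho d n := hR2 c d n h2
      have h4 : A i c n = A i d n := h n (by omega)
      have h5 : c n = d n := by
        unfold A at h4
        rw [← h3] at h4
        by_cases h0 : rho c n = 0
        · rw [if_pos h0, if_pos h0] at h4
          have hc : c n < 8 * 2 ^ n := by
            have := hVc n hn'
            unfold L at this
            omega
          have hd : d n < 8 * 2 ^ n := by
            have := hVd n hn'
            unfold L at this
            omega
          exact hP2 i n (c n) (d n) hi hc hd (hAc n hn' h0) (hAd n hn' (h3 ▸ h0)) h4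
        · rw [if_neg h0, if_neg h0] at h4
          exact h4
      intro s hs
      rcases Nat.lt_succ_iff_lt_or_eq.mp hs with h6 | h6
      · exact h2 s h6
      · rw [h6]; exact h5
    · intro h
      have h2 : Agr n c d := fun s hs => h s (by omega)
      have h3 : rho c n = rho d n := hR2 c d n h2
      have h1 : Agr n (A i c) (A i d) := ih'.mpr h2
      intro s hs
      rcases Nat.lt_succ_iff_lt_or_eq.mp hs with h6 | h6
      · exact h1 s h6
      · rw [h6]
        unfold A
        rw [h3, h n (by omega)]

end Pool.Agent.R995.BU
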