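import Pool.Agent.R995.BU.Stm

set_option autoImplicit false

/-! # Project BU (MP_91c8d1_an): the letter `i` maps nodes to nodes, never to a last child -/

namespace Pool.Agent.R995.BU

theorem t_AV (hR : StmRHO) (hP : StmPI) : StmAV := by
  obtain ⟨hr1, -, -, -, -⟩ := hR
  obtain ⟨hp1, -, hp3⟩ := hP
  intro i l c hi hV hA
  have claim : ∀ n ≤ l, rho c n = 0 ∨ rho (A i c) n < rho c n := by
    intro n
    induction n with
    | zero => intro _; exact Or.inl rfl
    | succ n ih =>
      intro hn
      have hn' : n < l := hn
      have e1 : rho c (n + 1) = rho c n + (if c n < 3 * 2 ^ n then 2 ^ n else 0) := rfl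
      have e2 : rho (A i c) (n + 1) =
          rho (A i c) n + (if A i c n < 3 * 2 ^ n then 2 ^ n else 0) := rfl
      rcases ih hn'.le with h | h
      · by_cases hz : c n < 3 * 2 ^ n
        · right
          have hAn : A i c n = pii i n (c n) := by
            show (if rho c n = 0 then pii i n (c n) else c n) = _
            rw [if_pos h]
          have h3 := hp3 i n (c n) hi hz (hA n hn' h)
          have h4 : ¬ A i c n < 3 * 2 ^ n := by rw [hAn]; omega
          rw [e1, e2, if_pos hz, if_neg h4, h]
          have := hr1 (A i c) n
          omega
        · left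
          rw [e1, if_neg hz, h]
      · right
        have h0 : rho c n ≠ 0 := by omega
        have hAn : A i c n = c n := by
          show (if rho c n = 0 then pii i n (c n) else c n) = _
          rw [if_neg h0]
        rw [e1, e2, hAn]
        omega
  intro n hn
  have hL : L n = 8 * 2 ^ n := rfl
  by_cases h : rho c n = 0
  · have hAn : A i c n = pii i n (c n) := by
      show (if rho c n = 0 then pii i n (c n) else c n) = _
      rw [if_pos h]
    rw [hAn]
    have h1 := hp1 i n (c n)
    have h2 := hr1 (A i c) n
    rw [hL]
    omega
  · have hAn : A i c n = c n := by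
      show (if rho c n = 0 then pii i n (c n) else c n) = _
      rw [if_neg h]
    rw [hAn]
    have h1 := hV n hn
    rcases claim n hn.le with h2 | h2
    · exact absurd h2 h
    · omega

end Pool.Agent.R995.BU
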