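import Pool.Agent.R995.BU.Stm

/-!
# (CON) continuity of the code for fixed `e`
-/

set_option autoImplicit false

namespace Pool.Agent.R995.BU

theorem con1 {X : Type*} [TopologicalSpace X] (F : ℕ → ℕ) {f : X → ℕ} (hf : Continuous f) :
    Continuous (fun x => F (f x)) :=
  (continuous_of_discreteTopology (f := F)).comp hf

theorem con2 {X : Type*} [TopologicalSpace X] (F : ℕ → ℕ → ℕ) {f g : X → ℕ}
    (hf : Continuous f) (hg : Continuous g) : Continuous (fun x => F (f x) (g x)) :=
  (continuous_of_discreteTopology (f := fun p : ℕ × ℕ => F p.1 p.2)).comp (hf.prodMk hg)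

theorem con3 {X : Type*} [TopologicalSpace X] (F : ℕ → ℕ → ℕ → ℕ) {f g h : X → ℕ}
    (hf : Continuous f) (hg : Continuous g) (hh : Continuous h) :
    Continuous (fun x => F (f x) (g x) (h x)) :=
  (continuous_of_discreteTopology (f := fun p : ℕ × ℕ × ℕ => F p.1 p.2.1 p.2.2)).comp
    (hf.prodMk (hg.prodMk hh))

theorem con_rho {X : Type*} [TopologicalSpace X] {c : X → ℕ → ℕ}
    (hc : ∀ n, Continuous (fun x => c x n)) (n : ℕ) : Continuous (fun x => rho (c x) n) := by
  induction n with
  | zero => exact continuous_const
  | succ n ih =>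
    exact con2 (fun a b => a + (if b < 3 * 2 ^ n then 2 ^ n else 0)) ih (hc n)

theorem con_mis {X : Type*} [TopologicalSpace X] {c : X → ℕ → ℕ}
    (hc : ∀ n, Continuous (fun x => c x n)) (n : ℕ) : Continuous (fun x => mis (c x) n) := by
  induction n with
  | zero => exact continuous_const
  | succ n ih =>
    exact con2 (fun a b => if a < 3 then a else if b < 3 * 2 ^ n then b / 2 ^ n else 3) ih (hc n)

theorem con_letter {X : Type*} [TopologicalSpace X] {c : X → ℕ → ℕ} {b : X → ℕ}
    (hc : ∀ n, Continuous (fun x => c x n)) (l : ℕ) (hb : Continuous b) :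
    Continuous (fun x => letter (c x) l (b x)) :=
  con2 (fun m b => if b = 0 then (if m = 0 then 1 else 0) else (if m = 2 then 1 else 2))
    (con_mis hc l) hb

theorem con_A {X : Type*} [TopologicalSpace X] {c : X → ℕ → ℕ} {i : X → ℕ}
    (hc : ∀ n, Continuous (fun x => c x n)) (hi : Continuous i) (n : ℕ) :
    Continuous (fun x => A (i x) (c x) n) :=
  con3 (fun r i y => if r = 0 then pii i n y else y) (con_rho hc n) hi (hc n)

theorem con_step {X : Type*} [TopologicalSpace X] {c : X → ℕ → ℕ}
    (hc : ∀ n, Continuous (fun x => c x n)) (m : ℕ) (a : Bool) (n : ℕ) :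
    Continuous (fun x => step m a (c x) n) := by
  have hl : Continuous (fun x => letter (c x) (lv m) (c x (lv m) % 2)) :=
    con_letter hc (lv m) (con1 (fun y => y % 2) (hc (lv m)))
  unfold step
  split_ifs with h1 h2 h3 h4
  · exact con_A hc hl n
  · exact con1 (fun y => L (lv m) - y - 1) (con_rho (fun n => con_A hc hl n) (lv m))
  · exact con1 (fun y => y / 2) (hc (lv m))
  · exact con2 (fun y z => 6 * y + 2 * z + a.toNat) (hc (lv m + 1)) hl
  · exact hc n

theorem con_raw (e : List Bool) (n : ℕ) : Continuous (fun k : ℕ → ℕ => raw k e n) := by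
  induction e generalizing n with
  | nil => exact continuous_apply n
  | cons a e ih =>
    cases e with
    | nil =>
      by_cases h : n = 0
      · simp only [raw, h, if_true]
        exact con1 (fun y => 2 * y + a.toNat) (continuous_apply 0)
      · simp only [raw, h, if_false]
        exact continuous_apply n
    | cons b e =>
      exact con_step ih e.length a n

theorem t_CON : StmCON := by
  intro e
  refine continuous_pi fun n => ?_
  by_cases h : e ≠ [] ∧ n = lv (e.length - 1)
  · have : (fun k : ℕ → ℕ => code k e n) = fun k => Nat.pair e.length (raw k e n) := by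
      funext k
      exact if_pos h
    rw [this]
    exact con1 (fun y => Nat.pair e.length y) (con_raw e n)
  · have : (fun k : ℕ → ℕ => code k e n) = fun k => Nat.pair 0 (raw k e n) := by
      funext k
      exact if_neg h
    rw [this]
    exact con1 (fun y => Nat.pair 0 y) (con_raw e n)

end Pool.Agent.R995.BU
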