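import Pool.Agent.R995.BU.Stm

/-! Project BU (helper995), piece CPT by helper780: compactness of the set of all codes. -/

set_option autoImplicit false

namespace Pool.Agent.R995.BU

open Filter Topology

namespace CPT

lemma continuous_rho (n : ℕ) : Continuous (fun k : ℕ → ℕ => rho k n) := by
  induction n with
  | zero => exact continuous_const
  | succ n ih =>
    have h2 : Continuous (fun j : ℕ => if j < 3 * 2 ^ n then 2 ^ n else 0) :=
      continuous_of_discreteTopology
    have h3 : Continuous (fun k : ℕ → ℕ => if k n < 3 * 2 ^ n then 2 ^ n else 0) :=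
      h2.comp (continuous_apply n)
    exact ih.add h3

lemma isCompact_KK : IsCompact KK := by
  have h1 : IsCompact (Set.univ.pi fun n : ℕ => (Set.Iio (L n) : Set ℕ)) :=
    isCompact_univ_pi fun n => (Set.finite_Iio (L n)).isCompact
  apply h1.of_isClosed_subset
  · have h2 : KK = ⋂ n, {k : ℕ → ℕ | k n < L n - rho k n} := by
      ext k; simp [KK]
    rw [h2]
    apply isClosed_iInter
    intro n
    have h3 : Continuous (fun k : ℕ → ℕ => (k n, rho k n)) :=
      (continuous_apply n).prodMk (continuous_rho n)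
    exact (isClosed_discrete {p : ℕ × ℕ | p.1 < L n - p.2}).preimage h3
  · intro k hk n _
    have := hk n
    simp only [Set.mem_Iio]
    omega

lemma L_pos (hR : StmRHO) (k : ℕ → ℕ) (n : ℕ) : 0 < L n - rho k n := by
  have h1 := hR.1 k n
  unfold L
  omega

/-- continuation of a prefix by zeros -/
def ext0 (l : ℕ) (c : ℕ → ℕ) (n : ℕ) : ℕ := if n < l then c n else 0

lemma ext0_mem (hR : StmRHO) (l : ℕ) (c : ℕ → ℕ) (h : Val l c) : ext0 l c ∈ KK := by
  intro n
  by_cases hn : n < l
  · have h1 : rho (ext0 l c) n = rho c n := by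
      apply hR.2.1
      intro s hs
      unfold ext0
      rw [if_pos (hs.trans hn)]
    rw [h1]
    unfold ext0
    rw [if_pos hn]
    exact h n hn
  · have h1 : ext0 l c n = 0 := by unfold ext0; rw [if_neg hn]
    rw [h1]
    exact L_pos hR _ _

lemma agr_code (l : ℕ) (k : ℕ → ℕ) (e : List Bool) (hl : l = lv (e.length - 1)) :
    Agr l (code k e) (code (ext0 l (raw k e)) []) := by
  intro s hs
  have h1 : code k e s = Nat.pair 0 (raw k e s) := by
    unfold code
    rw [if_neg]
    rintro ⟨_, h⟩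
    omega
  have h2 : code (ext0 l (raw k e)) [] s = Nat.pair 0 (ext0 l (raw k e) s) := by
    unfold code
    rw [if_neg (by simp)]
    rfl
  rw [h1, h2]
  unfold ext0
  rw [if_pos hs]

/-- the codes of words of length at most `m` -/
def FF (m : ℕ) : Set (ℕ → ℕ) := ⋃ e ∈ {e : List Bool | e.length ≤ m}, (fun k => code k e) '' KK

lemma isCompact_FF (hC : StmCON) (m : ℕ) : IsCompact (FF m) :=
  (List.finite_length_le Bool m).isCompact_biUnion fun e _ => isCompact_KK.image (hC e)

end CPT

open CPT in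
theorem t_CPT (hR : StmRHO) (hP : StmPAR) (hI : StmINV) (hC : StmCON) : StmCPT := by
  refine ⟨isCompact_KK, ⟨fun _ => 0, fun n => L_pos hR _ _⟩, ?_⟩
  rw [isCompact_iff_ultrafilter_le_nhds]
  intro f hf
  rw [le_principal_iff] at hf
  have hsub : ∀ m, FF m ⊆ {x : ℕ → ℕ | ∃ k ∈ KK, ∃ e : List Bool, x = code k e} := by
    intro m x hx
    simp only [FF, Set.mem_iUnion, Set.mem_image] at hx
    obtain ⟨e, _, k, hk, rfl⟩ := hx
    exact ⟨k, hk, e, rfl⟩
  by_cases hcase : ∃ m, FF m ∈ f
  · obtain ⟨m, hm⟩ := hcase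
    have h1 := isCompact_FF hC m
    rw [isCompact_iff_ultrafilter_le_nhds] at h1
    obtain ⟨x, hx, hfx⟩ := h1 f (le_principal_iff.mpr hm)
    exact ⟨x, hsub m hx, hfx⟩
  push Not at hcase
  obtain ⟨_, _, _, _, hlv, _, _⟩ := hP
  choose m0 hm0 using hlv
  -- the nearest point of the set of codes of the empty word
  have hex : ∀ x : ℕ → ℕ, ∃ y : ℕ → ℕ, (∃ k ∈ KK, ∃ e : List Bool, x = code k e) →
      y ∈ FF 0 ∧ ∀ N, x ∉ FF (m0 N) → Agr N x y := by
    intro x
    by_cases hx : ∃ k ∈ KK, ∃ e : List Bool, x = code k e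
    · obtain ⟨k, hk, e, rfl⟩ := hx
      rcases List.eq_nil_or_concat e with rfl | hne
      · refine ⟨code k [], fun _ => ⟨?_, fun N _ s _ => rfl⟩⟩
        simp only [FF, Set.mem_iUnion, Set.mem_image]
        exact ⟨[], by simp, k, hk, rfl⟩
      · have hne' : e ≠ [] := by
          rintro rfl
          obtain ⟨a, b, h⟩ := hne
          simp at h
        refine ⟨code (ext0 (lv (e.length - 1)) (raw k e)) [], fun _ => ⟨?_, ?_⟩⟩
        · simp only [FF, Set.mem_iUnion, Set.mem_image]
          exact ⟨[], by simp, _, ext0_mem hR _ _ (hI k e hk hne').1, rfl⟩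
        · intro N hN s hs
          apply agr_code _ k e rfl
          have h1 : m0 N < e.length := by
            by_contra hcon
            push Not at hcon
            apply hN
            simp only [FF, Set.mem_iUnion, Set.mem_image]
            exact ⟨e, hcon, k, hk, rfl⟩
          have h2 := hm0 N (e.length - 1) (by omega)
          omega
    · exact ⟨x, fun h => absurd h hx⟩
  choose φ hφ using hex
  have h0 := isCompact_FF hC 0
  rw [isCompact_iff_ultrafilter_le_nhds] at h0
  have hmem : FF 0 ∈ f.map φ := by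
    rw [Ultrafilter.mem_map]
    filter_upwards [hf] with x hx
    exact (hφ x hx).1
  obtain ⟨y, hy, hfy⟩ := h0 (f.map φ) (le_principal_iff.mpr hmem)
  refine ⟨y, hsub 0 hy, ?_⟩
  have h3 : Tendsto φ (f : Filter (ℕ → ℕ)) (𝓝 y) := hfy
  rw [tendsto_pi_nhds] at h3
  have h4 : Tendsto (fun x : ℕ → ℕ => x) (f : Filter (ℕ → ℕ)) (𝓝 y) := by
    rw [tendsto_pi_nhds]
    intro n
    apply (h3 n).congr'
    have h5 : (FF (m0 (n + 1)))ᶜ ∈ f := Ultrafilter.compl_mem_iff_notMem.mpr (hcase _)
    filter_upwards [hf, h5] with x hx hx'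
    exact ((hφ x hx).2 (n + 1) hx' n (Nat.lt_succ_self n)).symm
  exact h4

end Pool.Agent.R995.BU
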