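import Pool.Agent.R995.BU.Stm

/-!
Project BU, piece INJ: the code is injective (helper606).
-/

set_option autoImplicit false

namespace Pool.Agent.R995.BU

theorem letter_lt_three (c : ℕ → ℕ) (l b : ℕ) : letter c l b < 3 := by
  unfold letter
  split_ifs <;> omega

theorem code_fst (k : ℕ → ℕ) (e : List Bool) (n : ℕ) :
    (Nat.unpair (code k e n)).1 = if e ≠ [] ∧ n = lv (e.length - 1) then e.length else 0 := by
  unfold code
  split_ifs <;> simp only [Nat.unpair_pair]

theorem code_snd (k : ℕ → ℕ) (e : List Bool) (n : ℕ) :
    (Nat.unpair (code k e n)).2 = raw k e n := by
  unfold code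
  split_ifs <;> simp only [Nat.unpair_pair]

theorem code_len {k k' : ℕ → ℕ} {e e' : List Bool} (h : ∀ n, code k e n = code k' e' n)
    (he : e ≠ []) : e.length = e'.length := by
  have h1 := congrArg (fun x => (Nat.unpair x).1) (h (lv (e.length - 1)))
  simp only [code_fst] at h1
  rw [if_pos ⟨he, trivial⟩] at h1
  have h2 : e.length ≠ 0 := fun h0 => he (List.length_eq_zero_iff.1 h0)
  by_cases h3 : e' ≠ [] ∧ lv (e.length - 1) = lv (e'.length - 1)
  · rw [if_pos h3] at h1
    exact h1
  · rw [if_neg h3] at h1
    exact absurd h1 h2

theorem t_INJ' (hIso : StmISO) : StmINJ := by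
  intro k k' e
  induction e generalizing k k' with
  | nil =>
    intro e' _ _ h
    have he' : e' = [] := by
      by_contra hne
      have h1 := code_len (fun n => (h n).symm) hne
      exact hne (List.length_eq_zero_iff.1 (h1.trans List.length_nil))
    subst he'
    refine ⟨funext fun n => ?_, rfl⟩
    have h1 := congrArg (fun x => (Nat.unpair x).2) (h n)
    simp only [code_snd] at h1
    exact h1
  | cons a t ih =>
    intro e' hk hk' h
    have hlen := code_len h (List.cons_ne_nil a t)
    have hraw : ∀ n, raw k (a :: t) n = raw k' e' n := by
      intro n
      have h1 := congrArg (fun x => (Nat.unpair x).2) (h n)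
      simp only [code_snd] at h1
      exact h1
    cases e' with
    | nil => simp at hlen
    | cons a' t' =>
      have hlen' : t.length = t'.length := by simpa using hlen
      cases t with
      | nil =>
        have ht' : t' = [] := List.length_eq_zero_iff.1 (hlen'.symm.trans List.length_nil)
        subst ht'
        have h0 := hraw 0
        change (if (0 : ℕ) = 0 then 2 * k 0 + a.toNat else k 0) =
          (if (0 : ℕ) = 0 then 2 * k' 0 + a'.toNat else k' 0) at h0
        rw [if_pos rfl, if_pos rfl] at h0
        have ha : a = a' := by
          cases a <;> cases a' <;> simp at h0 ⊢ <;> omega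
        subst ha
        refine ⟨funext fun n => ?_, rfl⟩
        by_cases hn : n = 0
        · subst hn
          omega
        · have h1 := hraw n
          change (if n = 0 then 2 * k 0 + a.toNat else k n) =
            (if n = 0 then 2 * k' 0 + a.toNat else k' n) at h1
          rw [if_neg hn, if_neg hn] at h1
          exact h1
      | cons b t =>
        cases t' with
        | nil => simp at hlen'
        | cons b' t' =>
          have hlen'' : t.length = t'.length := by simpa using hlen'
          have h1 := hraw (lv t.length + 1)
          have e1 : ∀ (k : ℕ → ℕ) (a : Bool), raw k (a :: b :: t) (lv t.length + 1) =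
              6 * raw k (b :: t) (lv t.length + 1) + 2 * letter (raw k (b :: t)) (lv t.length)
                (raw k (b :: t) (lv t.length) % 2) + a.toNat := by
            intro k a
            change step t.length a (raw k (b :: t)) (lv t.length + 1) = _
            unfold step
            rw [if_neg (by omega), if_neg (by omega), if_pos rfl]
          have e2 : ∀ (k : ℕ → ℕ) (a : Bool), raw k (a :: b' :: t') (lv t.length + 1) =
              6 * raw k (b' :: t') (lv t.length + 1) + 2 * letter (raw k (b' :: t')) (lv t.length)
                (raw k (b' :: t') (lv t.length) % 2) + a.toNat := by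
            intro k a
            change step t'.length a (raw k (b' :: t')) (lv t.length + 1) = _
            rw [hlen'']
            unfold step
            rw [if_neg (by omega), if_neg (by omega), if_pos rfl]
          rw [e1, e2] at h1
          have h2 := letter_lt_three (raw k (b :: t)) (lv t.length) (raw k (b :: t) (lv t.length) % 2)
          have h3 := letter_lt_three (raw k' (b' :: t')) (lv t.length)
            (raw k' (b' :: t') (lv t.length) % 2)
          have ha : a = a' := by
            cases a <;> cases a' <;> simp only [Bool.toNat_true, Bool.toNat_false] at h1 ⊢ <;> omega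
          subst ha
          have hidx : idx k (b :: t) = idx k' (b' :: t') := by
            change letter (raw k (b :: t)) (lv t.length) (raw k (b :: t) (lv t.length) % 2) =
              letter (raw k' (b' :: t')) (lv t'.length) (raw k' (b' :: t') (lv t'.length) % 2)
            rw [← hlen'']
            omega
          have h4 : ∀ n, code k (b :: t) n = code k' (b' :: t') n := by
            intro n
            have h5 := (hIso.2 k k' (b :: t) (b' :: t') a hk hk' (List.cons_ne_nil _ _)
              (List.cons_ne_nil _ _) hidx (n + 1)).1 (fun s _ => h s)
            exact h5 n (Nat.lt_succ_self n)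
          obtain ⟨h6, h7⟩ := ih k k' (b' :: t') hk hk' h4
          exact ⟨h6, by rw [h7]⟩

theorem t_INJ (_hR : StmRHO) (_hL : StmLET) (_hP : StmPAR) (hIso : StmISO) : StmINJ :=
  t_INJ' hIso

end Pool.Agent.R995.BU
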