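import Pool.Agent.R995.BU.Stm

/-!
# BU-INV (helper451): the invariants of the raw sequences
-/

set_option autoImplicit false

namespace Pool.Agent.R995.BU

theorem t_INV (hR : StmRHO) (hAV : StmAV) (hL : StmLET) (hP : StmPAR) : StmINV := by
  obtain ⟨hR1, hR2, -, -, -⟩ := hR
  obtain ⟨hP1, hP2, hP3, hP4, -, -, -⟩ := hP
  have hLpos : ∀ n, 2 ^ n ≤ L n := fun n => by
    unfold L
    omega
  intro k e hk
  induction e with
  | nil => intro h; exact absurd rfl h
  | cons a e ih =>
    intro _
    rcases e with _ | ⟨b, e⟩
    · -- one letter
      have h0 : lv (([a] : List Bool).length - 1) = 0 := rfl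
      have h1 : ∀ n, bd (([a] : List Bool).length - 1) n = if n = 0 then 16 else L n := fun n => rfl
      rw [h0]
      refine ⟨fun n hn => absurd hn (Nat.not_lt_zero n), fun n _ => ?_⟩
      rw [h1]
      have hkn := hk n
      by_cases hn : n = 0
      · subst hn
        have h2 : raw k [a] 0 = 2 * k 0 + a.toNat := by simp [raw]
        have h3 : L 0 = 8 := rfl
        have h4 := Bool.toNat_le a
        rw [h2, if_pos rfl]
        rw [h3] at hkn
        omega
      · have h2 : raw k [a] n = k n := by simp [raw, hn]
        rw [h2, if_neg hn]
        omega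
    · -- the step
      have hlen1 : (a :: b :: e).length - 1 = e.length + 1 := by simp
      have hlen2 : (b :: e).length - 1 = e.length := by simp
      have ih' := ih (by simp)
      rw [hlen2] at ih'
      rw [hlen1]
      set m := e.length with hm
      set c := raw k (b :: e) with hc
      obtain ⟨hV, hB⟩ := ih'
      have hraw : raw k (a :: b :: e) = step m a c := rfl
      rw [hraw]
      set l := lv m with hl
      set i := letter c l (c l % 2) with hi
      obtain ⟨hL1, hL2, -⟩ := hL l c hV
      have hi3 : i < 3 := hL1 _
      have hAvi : Av i l c := hL2 _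
      have hAVi := hAV i l c hi3 hV hAvi
      have s1 : ∀ n, n < l → step m a c n = A i c n := fun n hn => by
        unfold step
        rw [if_pos hn]
      have s2 : step m a c l = if bd m l ≤ 1 then L l - rho (A i c) l - 1 else c l / 2 := by
        unfold step
        rw [if_neg (lt_irrefl _), if_pos rfl]
      have s3 : step m a c (l + 1) = 6 * c (l + 1) + 2 * i + a.toNat := by
        unfold step
        rw [if_neg (by omega), if_neg (by omega), if_pos rfl]
      have s4 : ∀ n, l + 1 < n → step m a c n = c n := fun n hn => by
        unfold step
        rw [if_neg (by omega), if_neg (by omega), if_neg (by omega)]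
      have hrho : ∀ n, n ≤ l → rho (step m a c) n = rho (A i c) n := fun n hn =>
        hR2 _ _ n fun s hs => s1 s (by omega)
      have hlow : ∀ n, n < l → step m a c n < L n - rho (step m a c) n := by
        intro n hn
        rw [hrho n hn.le, s1 n hn]
        have := hAVi n hn
        omega
      have hhigh : ∀ n, l + 1 ≤ n → step m a c n < bd (m + 1) n := by
        intro n hn
        rcases Nat.eq_or_lt_of_le hn with h1 | h1
        · have hP3' : bd (m + 1) (l + 1) = 6 * bd m (l + 1) := hP3 m
          rw [← h1, s3, hP3']
          have h2 := hB (l + 1) (by omega)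
          have h3 := Bool.toNat_le a
          omega
        · rw [s4 n h1, hP4 m n h1]
          exact hB n (by omega)
      by_cases hbd : bd m l ≤ 1
      · have hlv := hP1 m hbd
        rw [hlv]
        refine ⟨fun n hn => ?_, hhigh⟩
        rcases Nat.lt_or_ge n l with h1 | h1
        · exact hlow n h1
        · have h2 : n = l := by omega
          rw [h2, s2, if_pos hbd, hrho l le_rfl]
          have h3 := hR1 (A i c) l
          have h4 := hLpos l
          omega
      · obtain ⟨hlv, hbd2'⟩ := hP2 m hbd
        have hbd2 : bd (m + 1) l = (bd m l + 1) / 2 := hbd2'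
        rw [hlv]
        refine ⟨hlow, fun n hn => ?_⟩
        rcases Nat.eq_or_lt_of_le hn with h1 | h1
        · rw [← h1, s2, if_neg hbd, hbd2]
          have h2 := hB l le_rfl
          omega
        · exact hhigh n h1

end Pool.Agent.R995.BU
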