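import Pool.Agent.R995.BU.Stm

set_option autoImplicit false

namespace Pool.Agent.R995.BU

theorem lv_zero : lv 0 = 0 := rfl

/-- The base case of the isometry statement. -/
theorem iso_base (k k' : ℕ → ℕ) (a : Bool) (n : ℕ) :
    Agr n (code k [a]) (code k' [a]) ↔ Agr n (code k []) (code k' []) := by
  have key : ∀ s, code k [a] s = code k' [a] s ↔ code k [] s = code k' [] s := by
    intro s
    unfold code
    simp only [raw, List.length_singleton, ne_eq, not_true_eq_false, false_and, if_false,
      reduceCtorEq, not_false_eq_true, true_and]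
    by_cases h : s = 0
    · subst h
      have h0 : (0 : ℕ) = lv (1 - 1) := rfl
      rw [if_pos h0, if_pos h0]
      simp only [if_true, Nat.pair_eq_pair, true_and]
      omega
    · have h0 : ¬ (s = lv (1 - 1)) := h
      rw [if_neg h0, if_neg h0]
      simp only [if_neg h, Nat.pair_eq_pair, true_and]
  constructor
  · intro H s hs
    exact (key s).1 (H s hs)
  · intro H s hs
    exact (key s).2 (H s hs)

theorem t_ISO (hA : StmISOA) (hB : StmISOB) : StmISO := by
  refine ⟨fun k k' a n => iso_base k k' a n, ?_⟩
  intro k k' e e' a hk hk' he he' hidx n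
  rcases lt_trichotomy e.length e'.length with h | h | h
  · exact hB k k' e e' a hk hk' he he' h hidx n
  · exact hA k k' e e' a hk hk' he he' h hidx n
  · have h1 := hB k' k e' e a hk' hk he' he h hidx.symm n
    have sym : ∀ (x y : ℕ → ℕ), Agr n x y ↔ Agr n y x :=
      fun x y => ⟨fun H s hs => (H s hs).symm, fun H s hs => (H s hs).symm⟩
    rw [sym (code k (a :: e)), sym (code k e)]
    exact h1

end Pool.Agent.R995.BU
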