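import Pool.Agent.R995.BU.Stm

/-!
BU-ISOA: one step of the dynamics is an isometry, words of the same length.
-/

set_option autoImplicit false

namespace Pool.Agent.R995.BU

namespace ISOAp

lemma agr_succ (n : ℕ) (x y : ℕ → ℕ) : Agr (n + 1) x y ↔ Agr n x y ∧ x n = y n := by
  unfold Agr
  constructor
  · intro h
    exact ⟨fun s hs => h s (by omega), h n (by omega)⟩
  · rintro ⟨h1, h2⟩ s hs
    rcases Nat.lt_succ_iff_lt_or_eq.1 hs with h | h
    · exact h1 s h
    · rw [h]; exact h2

lemma raw_cons (k : ℕ → ℕ) (a : Bool) (e : List Bool) (he : e ≠ []) :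
    raw k (a :: e) = step (e.length - 1) a (raw k e) := by
  cases e with
  | nil => exact absurd rfl he
  | cons b e => rfl

lemma code_eq (k : ℕ → ℕ) (e : List Bool) (he : e ≠ []) (n : ℕ) :
    code k e n = Nat.pair (if n = lv (e.length - 1) then e.length else 0) (raw k e n) := by
  unfold code
  by_cases h : n = lv (e.length - 1)
  · rw [if_pos ⟨he, h⟩, if_pos h]
  · rw [if_neg (fun h' => h h'.2), if_neg h]

/-- codes of words of the same length agree iff the raw sequences agree -/
lemma agr_code (k k' : ℕ → ℕ) (e e' : List Bool) (he : e ≠ []) (he' : e' ≠ [])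
    (hl : e.length = e'.length) (n : ℕ) :
    Agr n (code k e) (code k' e') ↔ Agr n (raw k e) (raw k' e') := by
  unfold Agr
  refine forall_congr' fun s => forall_congr' fun _ => ?_
  rw [code_eq k e he, code_eq k' e' he', hl, Nat.pair_eq_pair]
  simp

lemma letter_congr (c c' : ℕ → ℕ) (l b : ℕ) (h : mis c l = mis c' l) :
    letter c l b = letter c' l b := by
  unfold letter
  rw [h]

lemma step_lt (m : ℕ) (a : Bool) (c : ℕ → ℕ) (n : ℕ) (h : n < lv m) :
    step m a c n = A (letter c (lv m) (c (lv m) % 2)) c n := by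
  unfold step
  exact if_pos h

lemma step_eq_tr (m : ℕ) (a : Bool) (c : ℕ → ℕ) (h : bd m (lv m) ≤ 1) :
    step m a c (lv m) = L (lv m) - rho (A (letter c (lv m) (c (lv m) % 2)) c) (lv m) - 1 := by
  unfold step
  rw [if_neg (lt_irrefl _), if_pos rfl, if_pos h]

lemma step_eq_ntr (m : ℕ) (a : Bool) (c : ℕ → ℕ) (h : ¬ bd m (lv m) ≤ 1) :
    step m a c (lv m) = c (lv m) / 2 := by
  unfold step
  rw [if_neg (lt_irrefl _), if_pos rfl, if_neg h]

lemma step_succ (m : ℕ) (a : Bool) (c : ℕ → ℕ) :
    step m a c (lv m + 1) =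
      6 * c (lv m + 1) + 2 * letter c (lv m) (c (lv m) % 2) + a.toNat := by
  have h1 : ¬ (lv m + 1 < lv m) := by omega
  have h2 : ¬ (lv m + 1 = lv m) := by omega
  unfold step
  rw [if_neg h1, if_neg h2, if_pos rfl]

lemma step_gt (m : ℕ) (a : Bool) (c : ℕ → ℕ) (n : ℕ) (h : lv m + 1 < n) :
    step m a c n = c n := by
  have h1 : ¬ (n < lv m) := by omega
  have h2 : ¬ (n = lv m) := by omega
  have h3 : ¬ (n = lv m + 1) := by omega
  unfold step
  rw [if_neg h1, if_neg h2, if_neg h3]

lemma step_agr (hR : StmRHO) (hAI : StmAI) (hL : StmLET) (m : ℕ) (a : Bool) (c c' : ℕ → ℕ)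
    (hv : Val (lv m) c) (hv' : Val (lv m) c') (hb : c (lv m) < bd m (lv m))
    (hb' : c' (lv m) < bd m (lv m))
    (hi : letter c (lv m) (c (lv m) % 2) = letter c' (lv m) (c' (lv m) % 2)) (n : ℕ) :
    Agr n (step m a c) (step m a c') ↔ Agr n c c' := by
  obtain ⟨-, hR2, hR3, -, -⟩ := hR
  obtain ⟨hL1, hL2, hL3⟩ := hL (lv m) c hv
  obtain ⟨hL1', hL2', -⟩ := hL (lv m) c' hv'
  have hAv : Av (letter c (lv m) (c (lv m) % 2)) (lv m) c := hL2 _
  have hAv' : Av (letter c (lv m) (c (lv m) % 2)) (lv m) c' := by rw [hi]; exact hL2' _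
  have hAI' := hAI _ _ c c' (hL1 (c (lv m) % 2)) hv hv' hAv hAv'
  induction n with
  | zero => simp [Agr]
  | succ n ih =>
    have ih' : Agr n (step m a c) (step m a c') ↔ Agr n c c' := ih
    rw [agr_succ, agr_succ, ih']
    refine and_congr_right fun hn => ?_
    rcases lt_trichotomy n (lv m) with h | h | h
    · -- below the level
      have h1 := hAI' n h.le
      have h2 := hAI' (n + 1) h
      rw [agr_succ, agr_succ, h1] at h2
      have h3 : A (letter c (lv m) (c (lv m) % 2)) c n = A (letter c (lv m) (c (lv m) % 2)) c' n ↔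
          c n = c' n := by
        constructor
        · intro h4
          exact (h2.1 ⟨hn, h4⟩).2
        · intro h4
          exact (h2.2 ⟨hn, h4⟩).2
      rw [step_lt m a c n h, step_lt m a c' n h, ← hi]
      exact h3
    · -- at the level
      subst h
      by_cases ht : bd m (lv m) ≤ 1
      · rw [step_eq_tr m a c ht, step_eq_tr m a c' ht, ← hi]
        have h1 : c (lv m) = c' (lv m) := by omega
        have h2 := hR2 _ _ _ ((hAI' (lv m) le_rfl).2 hn)
        rw [h2]
        exact iff_of_true rfl h1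
      · rw [step_eq_ntr m a c ht, step_eq_ntr m a c' ht]
        have hpar : c (lv m) % 2 = c' (lv m) % 2 := by
          rw [letter_congr c' c _ _ (hR3 _ _ _ hn).symm] at hi
          rcases Nat.mod_two_eq_zero_or_one (c (lv m)) with h1 | h1 <;>
          rcases Nat.mod_two_eq_zero_or_one (c' (lv m)) with h2 | h2
          · rw [h1, h2]
          · rw [h1, h2] at hi; exact absurd hi hL3
          · rw [h1, h2] at hi; exact absurd hi.symm hL3
          · rw [h1, h2]
        omega
    · -- above the level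
      by_cases h1 : n = lv m + 1
      · subst h1
        rw [step_succ, step_succ, ← hi]
        omega
      · rw [step_gt m a c n (by omega), step_gt m a c' n (by omega)]

end ISOAp

open ISOAp in
theorem t_ISOA (hR : StmRHO) (_hPI : StmPI) (_hAV : StmAV) (hAI : StmAI) (hL : StmLET)
    (_hP : StmPAR) (hI : StmINV) : StmISOA := by
  intro k k' e e' a hk hk' he he' hl hi n
  obtain ⟨hv, hb⟩ := hI k e hk he
  obtain ⟨hv', hb'⟩ := hI k' e' hk' he'
  rw [agr_code k k' e e' he he' hl, agr_code k k' (a :: e) (a :: e') (by simp) (by simp)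
    (by simp [hl]), raw_cons k a e he, raw_cons k' a e' he']
  unfold idx at hi
  rw [← hl] at hv' hb' hi ⊢
  exact step_agr hR hAI hL _ a _ _ hv hv' (hb _ le_rfl) (hb' _ le_rfl) hi n

end Pool.Agent.R995.BU
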