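import Pool.Agent.R995.BU.Stm

/-!
# Project BU, piece ISOB: one step is an isometry, words of different lengths
-/

set_option autoImplicit false

namespace Pool.Agent.R995.BU

namespace ISOBx

theorem code_marker (k : ℕ → ℕ) (e : List Bool) (n : ℕ) (he : e ≠ []) (hn : n = lv (e.length - 1)) :
    code k e n = Nat.pair e.length (raw k e n) := by
  unfold code
  rw [if_pos ⟨he, hn⟩]

theorem code_plain (k : ℕ → ℕ) (e : List Bool) (n : ℕ) (hn : n ≠ lv (e.length - 1)) :
    code k e n = Nat.pair 0 (raw k e n) := by
  unfold code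
  rw [if_neg (fun h => hn h.2)]

theorem raw_step (k : ℕ → ℕ) (e : List Bool) (a : Bool) (he : e ≠ []) :
    raw k (a :: e) = step (e.length - 1) a (raw k e) := by
  cases e with
  | nil => exact absurd rfl he
  | cons b e => rfl

end ISOBx

open ISOBx in
theorem t_ISOB (hR : StmRHO) (_hPI : StmPI) (hAV : StmAV) (hAI : StmAI) (hL : StmLET)
    (hP : StmPAR) (hI : StmINV) : StmISOB := by
  intro k k' e e' a hk hk' he he' hlen hidx n
  obtain ⟨P1, P2, P3, P4, P5, P6, P7⟩ := hP
  obtain ⟨m, hm⟩ : ∃ m, e.length = m + 1 := ⟨e.length - 1, by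
    have := List.length_pos_iff.2 he
    omega⟩
  obtain ⟨m', hm'⟩ : ∃ m', e'.length = m' + 1 := ⟨e'.length - 1, by
    have := List.length_pos_iff.2 he'
    omega⟩
  have hmm : m < m' := by omega
  obtain ⟨l, hl⟩ : ∃ l, l = lv m := ⟨_, rfl⟩
  obtain ⟨l', hl'⟩ : ∃ l', l' = lv m' := ⟨_, rfl⟩
  have hll : l ≤ l' := by rw [hl, hl']; exact P7 m m' hmm.le
  have hl1 : l ≤ lv (m + 1) := by rw [hl]; exact P7 m (m + 1) (Nat.le_succ m)
  have hl1' : l' ≤ lv (m' + 1) := by rw [hl']; exact P7 m' (m' + 1) (Nat.le_succ m')
  obtain ⟨c, hc⟩ : ∃ c, c = raw k e := ⟨_, rfl⟩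
  obtain ⟨d, hd⟩ : ∃ d, d = raw k' e' := ⟨_, rfl⟩
  have hVc : Val l c := by
    have := (hI k e hk he).1
    rw [hm, Nat.add_sub_cancel, ← hl, ← hc] at this
    exact this
  have hVd' : Val l' d := by
    have := (hI k' e' hk' he').1
    rw [hm', Nat.add_sub_cancel, ← hl', ← hd] at this
    exact this
  have hVd : Val l d := fun s hs => hVd' s (hs.trans_le hll)
  obtain ⟨i, hi⟩ : ∃ i, i = letter c l (c l % 2) := ⟨_, rfl⟩
  have hi' : i = letter d l' (d l' % 2) := by
    unfold idx at hidx
    rw [hm, hm', Nat.add_sub_cancel, Nat.add_sub_cancel, ← hl, ← hl', ← hc, ← hd] at hidx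
    rw [hi, hidx]
  have hi3 : i < 3 := by rw [hi]; exact (hL l c hVc).1 _
  have hAc : Av i l c := by rw [hi]; exact (hL l c hVc).2.1 _
  have hAd' : Av i l' d := by rw [hi']; exact (hL l' d hVd').2.1 _
  have hAd : Av i l d := fun s hs => hAd' s (hs.trans_le hll)
  have hC : raw k (a :: e) = step m a c := by
    rw [raw_step k e a he, hm, Nat.add_sub_cancel, hc]
  have hD : raw k' (a :: e') = step m' a d := by
    rw [raw_step k' e' a he', hm', Nat.add_sub_cancel, hd]
  have hCs : ∀ s, s < l → raw k (a :: e) s = A i c s := by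
    intro s hs
    rw [hC]
    unfold step
    rw [← hl, if_pos hs, ← hi]
  have hDs : ∀ s, s < l' → raw k' (a :: e') s = A i d s := by
    intro s hs
    rw [hD]
    unfold step
    rw [← hl', if_pos hs, ← hi']
  -- lengths
  have hlenC : (a :: e).length - 1 = m + 1 := by rw [List.length_cons, hm]; rfl
  have hlenD : (a :: e').length - 1 = m' + 1 := by rw [List.length_cons, hm']; rfl
  have hlc : e.length - 1 = m := by omega
  have hld : e'.length - 1 = m' := by omega
  -- codes before
  have b1 : ∀ s, s < l → code k e s = Nat.pair 0 (c s) := by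
    intro s hs
    rw [code_plain k e s (by rw [hlc, ← hl]; omega), ← hc]
  have b2 : ∀ s, s < l' → code k' e' s = Nat.pair 0 (d s) := by
    intro s hs
    rw [code_plain k' e' s (by rw [hld, ← hl']; omega), ← hd]
  have b3 : code k e l ≠ code k' e' l := by
    rw [code_marker k e l he (by rw [hlc, hl])]
    intro h
    by_cases h1 : l = l'
    · rw [code_marker k' e' l he' (by rw [hld, ← hl', h1]), Nat.pair_eq_pair] at h
      omega
    · rw [code_plain k' e' l (by rw [hld, ← hl']; exact h1), Nat.pair_eq_pair] at h
      omega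
  have a1 : ∀ s, s < l → code k (a :: e) s = Nat.pair 0 (A i c s) := by
    intro s hs
    rw [code_plain k (a :: e) s (by rw [hlenC]; omega), hCs s hs]
  have a2 : ∀ s, s < l' → code k' (a :: e') s = Nat.pair 0 (A i d s) := by
    intro s hs
    rw [code_plain k' (a :: e') s (by rw [hlenD]; omega), hDs s hs]
  have a3 : Agr l (code k (a :: e)) (code k' (a :: e')) →
      code k (a :: e) l ≠ code k' (a :: e') l := by
    intro hagr h
    by_cases ht : l = lv (m + 1)
    · rw [code_marker k (a :: e) l (List.cons_ne_nil _ _) (by rw [hlenC]; exact ht)] at h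
      by_cases h1 : l = lv (m' + 1)
      · rw [code_marker k' (a :: e') l (List.cons_ne_nil _ _) (by rw [hlenD]; exact h1),
          Nat.pair_eq_pair, List.length_cons, List.length_cons] at h
        omega
      · rw [code_plain k' (a :: e') l (by rw [hlenD]; exact h1), Nat.pair_eq_pair,
          List.length_cons] at h
        omega
    · have htr : bd m (lv m) ≤ 1 := by
        by_contra hcon
        exact ht (by rw [(P2 m hcon).1, hl])
      have hlt : l < l' := by
        rcases Nat.lt_or_ge l l' with h1 | h1
        · exact h1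
        · exfalso
          have h2 : lv m = lv m' := by rw [← hl, ← hl']; omega
          exact P6 m m' hmm h2 htr
      rw [code_plain k (a :: e) l (by rw [hlenC]; exact ht), a2 l hlt, Nat.pair_eq_pair] at h
      have h1 := h.2
      rw [hC] at h1
      unfold step at h1
      rw [← hl, if_neg (lt_irrefl l), if_pos rfl, if_pos (by rw [hl]; exact htr), ← hi] at h1
      have h2 : Agr l (A i c) (A i d) := by
        intro s hs
        have := hagr s hs
        rw [a1 s hs, a2 s (hs.trans hlt), Nat.pair_eq_pair] at this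
        exact this.2
      rw [hR.2.1 _ _ _ h2] at h1
      have h3 := hAV i l' d hi3 hVd' hAd' l hlt
      omega
  constructor
  · intro h
    have hn : n ≤ l := by
      by_contra hcon
      exact a3 (fun s hs => h s (by omega)) (h l (by omega))
    intro s hs
    rw [b1 s (by omega), b2 s (by omega)]
    have h1 : Agr n (A i c) (A i d) := by
      intro t ht
      have := h t ht
      rw [a1 t (by omega), a2 t (by omega), Nat.pair_eq_pair] at this
      exact this.2
    rw [(hAI i l c d hi3 hVc hVd hAc hAd n hn).1 h1 s hs]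
  · intro h
    have hn : n ≤ l := by
      by_contra hcon
      exact b3 (h l (by omega))
    intro s hs
    rw [a1 s (by omega), a2 s (by omega)]
    have h1 : Agr n c d := by
      intro t ht
      have := h t ht
      rw [b1 t (by omega), b2 t (by omega), Nat.pair_eq_pair] at this
      exact this.2
    rw [(hAI i l c d hi3 hVc hVd hAc hAd n hn).2 h1 s hs]

end Pool.Agent.R995.BU
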