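import Pool.Agent.R995.BU.Stm

set_option autoImplicit false

namespace Pool.Agent.R995.BU

/-- as long as no letter is missing, all entries are outside the zone; otherwise the description of the first zone entry -/
theorem mis_av (c : ℕ → ℕ) (hm : ∀ n, mis c n = 3 ↔ rho c n = 0) (i : ℕ) (hi : i < 3) :
    ∀ l, mis c l ≠ i → Av i l c := by
  intro l
  induction l with
  | zero => intro _ n hn; omega
  | succ l ih =>
    intro h n hn hr
    rcases Nat.lt_succ_iff_lt_or_eq.1 hn with hn' | hn'
    · refine ih ?_ n hn' hr
      intro h2
      apply h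
      simp only [mis]
      rw [if_pos (by omega)]
      exact h2
    · subst hn'
      have h3 : mis c n = 3 := (hm n).2 hr
      simp only [mis, h3] at h
      rw [if_neg (by omega)] at h
      intro ⟨ha, hb⟩
      apply h
      have hlt : c n < 3 * 2 ^ n := by
        have : (i + 1) * 2 ^ n ≤ 3 * 2 ^ n := Nat.mul_le_mul_right _ (by omega)
        omega
      rw [if_pos hlt]
      have hpos : 0 < 2 ^ n := by positivity
      apply le_antisymm
      · exact Nat.lt_succ_iff.1 ((Nat.div_lt_iff_lt_mul hpos).2 hb)
      · exact (Nat.le_div_iff_mul_le hpos).2 ha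

theorem t_LET (hR : StmRHO) : StmLET := by
  intro l c _
  have key : ∀ b, letter c l b < 3 ∧ mis c l ≠ letter c l b := by
    intro b
    unfold letter
    split_ifs <;> omega
  refine ⟨fun b => (key b).1, fun b => mis_av c (fun n => hR.2.2.2.1 c n) _ (key b).1 l (key b).2, ?_⟩
  unfold letter
  split_ifs <;> simp_all

end Pool.Agent.R995.BU
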