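import Pool.Agent.R995.BU.Stm

set_option autoImplicit false

namespace Pool.Agent.R995.BU

theorem met_agr_iff {x y : ℕ → ℕ} (hxy : x ≠ y) (n : ℕ) :
    Agr n x y ↔ n ≤ PiNat.firstDiff x y := by
  constructor
  · intro h
    by_contra hn
    exact PiNat.apply_firstDiff_ne hxy (h _ (not_le.1 hn))
  · intro h s hs
    exact PiNat.apply_eq_of_lt_firstDiff (lt_of_lt_of_le hs h)

theorem met_agr_all {x y : ℕ → ℕ} : x = y ↔ ∀ n, Agr n x y := by
  constructor
  · rintro rfl n s _
    rfl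
  · intro h
    funext s
    exact h (s + 1) s (Nat.lt_succ_self s)

theorem t_MET : StmMET := by
  letI := PiNat.metricSpaceNatNat
  show ∀ x y x' y' : ℕ → ℕ, (∀ n, (Agr n x y ↔ Agr n x' y')) → dist x y = dist x' y'
  intro x y x' y' h
  by_cases hxy : x = y
  · have h1 : x' = y' := met_agr_all.2 (fun n => (h n).1 (met_agr_all.1 hxy n))
    rw [hxy, h1, dist_self, dist_self]
  · have h1 : x' ≠ y' := fun h2 => hxy (met_agr_all.2 (fun n => (h n).2 (met_agr_all.1 h2 n)))
    have h2 : PiNat.firstDiff x y = PiNat.firstDiff x' y' := by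
      apply le_antisymm
      · rw [← met_agr_iff h1, ← h, met_agr_iff hxy]
      · rw [← met_agr_iff hxy, h, met_agr_iff h1]
    have h3 : dist x y = (1 / 2 : ℝ) ^ PiNat.firstDiff x y := PiNat.dist_eq_of_ne hxy
    have h4 : dist x' y' = (1 / 2 : ℝ) ^ PiNat.firstDiff x' y' := PiNat.dist_eq_of_ne h1
    rw [h3, h4, h2]

end Pool.Agent.R995.BU
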