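import Pool.Agent.R995.BU.Stm

set_option autoImplicit false

namespace Pool.Agent.R995.BU

theorem par_succ_le {m : ℕ} (h : bd m (lv m) ≤ 1) : par (m + 1) =
    ((par m).1 + 1, Function.update (par m).2 ((par m).1 + 1) (6 * (par m).2 ((par m).1 + 1))) := by
  have h' : (par m).2 (par m).1 ≤ 1 := h
  simp only [par]
  rw [if_pos h']

theorem par_succ_gt {m : ℕ} (h : ¬ bd m (lv m) ≤ 1) : par (m + 1) =
    ((par m).1, Function.update (Function.update (par m).2 (par m).1
      (((par m).2 (par m).1 + 1) / 2)) ((par m).1 + 1) (6 * (par m).2 ((par m).1 + 1))) := by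
  have h' : ¬ (par m).2 (par m).1 ≤ 1 := h
  simp only [par]
  rw [if_neg h']

theorem t_PAR : StmPAR := by
  have h1 : ∀ m, bd m (lv m) ≤ 1 → lv (m + 1) = lv m + 1 := by
    intro m h
    unfold lv
    rw [par_succ_le h]
  have h2 : ∀ m, ¬ bd m (lv m) ≤ 1 → lv (m + 1) = lv m ∧
      bd (m + 1) (lv m) = (bd m (lv m) + 1) / 2 := by
    intro m h
    refine ⟨?_, ?_⟩
    · unfold lv
      rw [par_succ_gt h]
    · unfold bd lv
      rw [par_succ_gt h]
      simp only
      rw [Function.update_of_ne (by omega), Function.update_self]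
  have h3 : ∀ m, bd (m + 1) (lv m + 1) = 6 * bd m (lv m + 1) := by
    intro m
    by_cases h : bd m (lv m) ≤ 1
    · unfold bd lv
      rw [par_succ_le h]
      simp only
      rw [Function.update_self]
    · unfold bd lv
      rw [par_succ_gt h]
      simp only
      rw [Function.update_self]
  have h4 : ∀ m n, lv m + 1 < n → bd (m + 1) n = bd m n := by
    intro m n hn
    have hn' : (par m).1 + 1 < n := hn
    by_cases h : bd m (lv m) ≤ 1
    · unfold bd
      rw [par_succ_le h]
      simp only
      rw [Function.update_of_ne (by omega)]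
    · unfold bd
      rw [par_succ_gt h]
      simp only
      rw [Function.update_of_ne (by omega), Function.update_of_ne (by omega)]
  have hstep : ∀ m, lv m ≤ lv (m + 1) := by
    intro m
    by_cases h : bd m (lv m) ≤ 1
    · rw [h1 m h]; omega
    · rw [(h2 m h).1]
  have hmono : Monotone lv := monotone_nat_of_le_succ hstep
  have hinc : ∀ (x m : ℕ), bd m (lv m) = x → ∃ m', lv m < lv m' := by
    intro x
    induction x using Nat.strong_induction_on with
    | _ x ih =>
      intro m hx
      by_cases h : bd m (lv m) ≤ 1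
      · exact ⟨m + 1, by rw [h1 m h]; omega⟩
      · obtain ⟨e1, e2⟩ := h2 m h
        obtain ⟨m', hm'⟩ := ih (bd (m + 1) (lv (m + 1))) (by rw [e1, e2]; omega) (m + 1) rfl
        exact ⟨m', by rw [← e1]; exact hm'⟩
  have hub : ∀ N, ∃ m, N ≤ lv m := by
    intro N
    induction N with
    | zero => exact ⟨0, Nat.zero_le _⟩
    | succ N ih =>
      obtain ⟨m, hm⟩ := ih
      obtain ⟨m', hm'⟩ := hinc _ m rfl
      exact ⟨m', by omega⟩
  refine ⟨h1, h2, h3, h4, ?_, ?_, fun m m' h => hmono h⟩
  · intro N
    obtain ⟨m, hm⟩ := hub N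
    exact ⟨m, fun m' hm' => hm.trans (hmono hm')⟩
  · intro m m' hmm he h
    have e1 := h1 m h
    have e2 : lv (m + 1) ≤ lv m' := hmono hmm
    omega

end Pool.Agent.R995.BU
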