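import Pool.Agent.R995.BU.Stm

set_option autoImplicit false

namespace Pool.Agent.R995.BU

theorem pii_val (i n j : ℕ) (h : sig i n j < 7 * 2 ^ n) :
    pii i n j = if sig i n j + 3 * 2 ^ n < 7 * 2 ^ n then sig i n j + 3 * 2 ^ n
      else sig i n j - 4 * 2 ^ n := by
  unfold pii
  split_ifs with h1
  · exact Nat.mod_eq_of_lt h1
  · rw [Nat.mod_eq_sub_mod (by omega), Nat.mod_eq_of_lt (by omega)]
    omega

theorem sig_lt (i n j : ℕ) (hi : i < 3) (hj : j < 8 * 2 ^ n)
    (h : ¬ (i * 2 ^ n ≤ j ∧ j < (i + 1) * 2 ^ n)) : sig i n j < 7 * 2 ^ n := by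
  have hP : 0 < 2 ^ n := Nat.two_pow_pos n
  unfold sig
  interval_cases i <;> split_ifs <;> omega

theorem t_PI : StmPI := by
  refine ⟨?_, ?_, ?_⟩
  · intro i n j
    exact Nat.mod_lt _ (by positivity)
  · intro i n j j' hi hj hj' h h' heq
    have hP : 0 < 2 ^ n := Nat.two_pow_pos n
    have s1 := sig_lt i n j hi hj h
    have s2 := sig_lt i n j' hi hj' h'
    rw [pii_val i n j s1, pii_val i n j' s2] at heq
    have key : sig i n j = sig i n j' := by
      split_ifs at heq <;> omega
    unfold sig at key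
    interval_cases i <;> split_ifs at key <;> omega
  · intro i n j hi hj h
    have hP : 0 < 2 ^ n := Nat.two_pow_pos n
    have s1 := sig_lt i n j hi (by omega) h
    rw [pii_val i n j s1]
    have key : sig i n j < 2 * 2 ^ n := by
      unfold sig
      interval_cases i <;> split_ifs <;> omega
    rw [if_pos (by omega)]
    omega

end Pool.Agent.R995.BU
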