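import Pool.Agent.R995.BU.Stm

set_option autoImplicit false

namespace Pool.Agent.R995.BU

lemma rho_succ' (c : ℕ → ℕ) (n : ℕ) :
    rho c (n + 1) = rho c n + (if c n < 3 * 2 ^ n then 2 ^ n else 0) := rfl

lemma mis_succ' (c : ℕ → ℕ) (n : ℕ) :
    mis c (n + 1) = if mis c n < 3 then mis c n else if c n < 3 * 2 ^ n then c n / 2 ^ n else 3 := rfl

lemma mis_le' (c : ℕ → ℕ) (n : ℕ) : mis c n ≤ 3 := by
  induction n with
  | zero => exact le_refl 3
  | succ n ih =>
    rw [mis_succ']
    split_ifs with h1 h2
    · exact ih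
    · exact (Nat.div_lt_of_lt_mul (by rw [mul_comm]; exact h2)).le
    · exact le_refl 3

lemma rho_lt' (c : ℕ → ℕ) (n : ℕ) : rho c n < 2 ^ n := by
  induction n with
  | zero => exact Nat.one_pos
  | succ n ih =>
    rw [rho_succ', pow_succ]
    split_ifs <;> omega

lemma rho_congr' (c d : ℕ → ℕ) (n : ℕ) : Agr n c d → rho c n = rho d n := by
  induction n with
  | zero => intro _; rfl
  | succ n ih =>
    intro h
    rw [rho_succ', rho_succ', ih (fun s hs => h s (by omega)), h n (by omega)]

lemma mis_congr' (c d : ℕ → ℕ) (n : ℕ) : Agr n c d → mis c n = mis d n := by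
  induction n with
  | zero => intro _; rfl
  | succ n ih =>
    intro h
    rw [mis_succ', mis_succ', ih (fun s hs => h s (by omega)), h n (by omega)]

lemma mis_iff' (c : ℕ → ℕ) (n : ℕ) : mis c n = 3 ↔ rho c n = 0 := by
  induction n with
  | zero => exact ⟨fun _ => rfl, fun _ => rfl⟩
  | succ n ih =>
    rw [rho_succ', mis_succ']
    have h3 := mis_le' c n
    have hp : 0 < 2 ^ n := by positivity
    by_cases h1 : mis c n < 3
    · rw [if_pos h1]
      have h2 : rho c n ≠ 0 := fun h => by
        have := ih.2 h
        omega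
      constructor
      · intro h; omega
      · intro h; omega
    · rw [if_neg h1]
      have h4 : mis c n = 3 := by omega
      have h5 := ih.1 h4
      rw [h5]
      by_cases h2 : c n < 3 * 2 ^ n
      · rw [if_pos h2, if_pos h2]
        have h6 : c n / 2 ^ n < 3 := Nat.div_lt_of_lt_mul (by rw [mul_comm]; exact h2)
        constructor
        · intro h; omega
        · intro h; omega
      · rw [if_neg h2, if_neg h2]
        simp

lemma rho_mono' (c : ℕ → ℕ) (m n : ℕ) (h : m ≤ n) : rho c m ≤ rho c n := by
  induction n, h using Nat.le_induction with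
  | base => exact le_refl _
  | succ n _ ih => rw [rho_succ']; omega

theorem t_RHO : StmRHO :=
  ⟨rho_lt', rho_congr', mis_congr', mis_iff', rho_mono'⟩

end Pool.Agent.R995.BU
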