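import Pool.Agent.R995.BU.Fin
import Pool.Agent.R995.BU.ISO
import Pool.Agent.R995.BU.RHO
import Pool.Agent.R995.BU.PII
import Pool.Agent.R995.BU.AV
import Pool.Agent.R995.BU.AI
import Pool.Agent.R995.BU.LET
import Pool.Agent.R995.BU.PAR
import Pool.Agent.R995.BU.INV
import Pool.Agent.R995.BU.ISOA
import Pool.Agent.R995.BU.ISOB
import Pool.Agent.R995.BU.INJ
import Pool.Agent.R995.BU.CONT
import Pool.Agent.R995.BU.CPT
import Pool.Agent.R995.BU.MET

set_option autoImplicit false

namespace Pool.Agent.R995.BU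

/-- There is a compact metric space with a Borel paradoxical decomposition under congruence. -/
theorem main :
    ¬ (∀ (X : Type) [MetricSpace X] [CompactSpace X] [Nonempty X]
      [MeasurableSpace X] [BorelSpace X],
      ¬ ∃ (n m : ℕ) (A C : Fin n → Set X) (B D : Fin m → Set X)
          (f : Fin n → X → X) (g : Fin m → X → X),
        1 ≤ n ∧ 1 ≤ m ∧
        (∀ i j : Fin n, i ≠ j → Disjoint (A i) (A j)) ∧
        (∀ i j : Fin m, i ≠ j → Disjoint (B i) (B j)) ∧
        (∀ (i : Fin n) (j : Fin m), Disjoint (A i) (B j)) ∧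
        (∀ i : Fin n, MeasurableSet (A i)) ∧
        (∀ j : Fin m, MeasurableSet (B j)) ∧
        (∀ i : Fin n, Set.BijOn (f i) (A i) (C i) ∧
          ∀ x ∈ A i, ∀ y ∈ A i, dist (f i x) (f i y) = dist x y) ∧
        (∀ j : Fin m, Set.BijOn (g j) (B j) (D j) ∧
          ∀ x ∈ B j, ∀ y ∈ B j, dist (g j x) (g j y) = dist x y) ∧
        (⋃ i, C i) = Set.univ ∧
        (⋃ j, D j) = Set.univ) := by
  have hR := t_RHO
  have hPI := t_PI
  have hAV := t_AV hR hPI
  have hAI := t_AI hR hPI
  have hL := t_LET hR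
  have hP := t_PAR
  have hI := t_INV hR hAV hL hP
  have hA := t_ISOA hR hPI hAV hAI hL hP hI
  have hB := t_ISOB hR hPI hAV hAI hL hP hI
  have hIso := t_ISO hA hB
  have hJ := t_INJ hR hL hP hIso
  have hC := t_CON
  have hK := t_CPT hR hP hI hC
  exact t_FIN hR t_MET hIso hJ hC hK

end Pool.Agent.R995.BU
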