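import Mathlib

/-!
# A compact ultrametric space with a Borel paradoxical decomposition under congruence

Definitions of the construction (see NOTES.md).
-/

set_option autoImplicit false

namespace Pool.Agent.R995.BU

/-- Base number of children at level `n`. -/
def L (n : ℕ) : ℕ := 8 * 2 ^ n

/-- `rho c n = ∑_{s < n, c s < 3 * 2 ^ s} 2 ^ s`. -/
def rho (c : ℕ → ℕ) : ℕ → ℕ
  | 0 => 0
  | n + 1 => rho c n + (if c n < 3 * 2 ^ n then 2 ^ n else 0)

def sig (i n j : ℕ) : ℕ := if j < i * 2 ^ n then j else j - 2 ^ n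

def pii (i n j : ℕ) : ℕ := (sig i n j + 3 * 2 ^ n) % (7 * 2 ^ n)

/-- The letter `i` acting on sequences. -/
def A (i : ℕ) (c : ℕ → ℕ) (n : ℕ) : ℕ := if rho c n = 0 then pii i n (c n) else c n

/-- The missing letter (`3` if no letter is missing). -/
def mis (c : ℕ → ℕ) : ℕ → ℕ
  | 0 => 3
  | n + 1 => if mis c n < 3 then mis c n else if c n < 3 * 2 ^ n then c n / 2 ^ n else 3

/-- Two available letters, `b = 0, 1`. -/
def letter (c : ℕ → ℕ) (l b : ℕ) : ℕ :=
  if b = 0 then (if mis c l = 0 then 1 else 0) else (if mis c l = 2 then 1 else 2)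

/-- The prefix of length `l` of `c` is a node of the tree of `K`. -/
def Val (l : ℕ) (c : ℕ → ℕ) : Prop := ∀ n < l, c n < L n - rho c n

/-- The letter `i` is available at the prefix of length `l` of `c`. -/
def Av (i l : ℕ) (c : ℕ → ℕ) : Prop :=
  ∀ n < l, rho c n = 0 → ¬ (i * 2 ^ n ≤ c n ∧ c n < (i + 1) * 2 ^ n)

/-- Agreement of two sequences up to (excluding) `n`. -/
def Agr (n : ℕ) (c d : ℕ → ℕ) : Prop := ∀ s < n, c s = d s

/-- The level and the bounds of the entries at generation `m`. -/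
def par : ℕ → ℕ × (ℕ → ℕ)
  | 0 => (0, fun n => if n = 0 then 16 else L n)
  | m + 1 =>
    if (par m).2 (par m).1 ≤ 1 then
      ((par m).1 + 1, Function.update (par m).2 ((par m).1 + 1) (6 * (par m).2 ((par m).1 + 1)))
    else
      ((par m).1, Function.update (Function.update (par m).2 (par m).1 (((par m).2 (par m).1 + 1) / 2))
        ((par m).1 + 1) (6 * (par m).2 ((par m).1 + 1)))

def lv (m : ℕ) : ℕ := (par m).1

def bd (m n : ℕ) : ℕ := (par m).2 n

/-- One step of the dynamics, from generation `m` to generation `m + 1`. -/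
def step (m : ℕ) (a : Bool) (c : ℕ → ℕ) (n : ℕ) : ℕ :=
  if n < lv m then A (letter c (lv m) (c (lv m) % 2)) c n
  else if n = lv m then
    (if bd m (lv m) ≤ 1 then L (lv m) - rho (A (letter c (lv m) (c (lv m) % 2)) c) (lv m) - 1
      else c (lv m) / 2)
  else if n = lv m + 1 then
    6 * c (lv m + 1) + 2 * letter c (lv m) (c (lv m) % 2) + a.toNat
  else c n

/-- The uncoded sequence of the point `(k, e)`. -/
def raw (k : ℕ → ℕ) : List Bool → (ℕ → ℕ)
  | [] => k
  | [a] => fun n => if n = 0 then 2 * k 0 + a.toNat else k n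
  | a :: b :: e => step e.length a (raw k (b :: e))

/-- The code of the point `(k, e)`. -/
def code (k : ℕ → ℕ) (e : List Bool) (n : ℕ) : ℕ :=
  if e ≠ [] ∧ n = lv (e.length - 1) then Nat.pair e.length (raw k e n) else Nat.pair 0 (raw k e n)

/-- The compact set `K`. -/
def KK : Set (ℕ → ℕ) := {k | ∀ n, k n < L n - rho k n}

/-- The letter used at the point `(k, e)`, `e ≠ []`. -/
def idx (k : ℕ → ℕ) (e : List Bool) : ℕ :=
  letter (raw k e) (lv (e.length - 1)) (raw k e (lv (e.length - 1)) % 2)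

end Pool.Agent.R995.BU
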