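import Pool.Agent.R995.BU.Stm

set_option autoImplicit false

namespace Pool.Agent.R995.BU

/-- The points of the space: `(k, e)`, `k ∈ K`, `e` a finite binary word. -/
structure XX where
  k : ℕ → ℕ
  hk : k ∈ KK
  e : List Bool

def cd (x : XX) : ℕ → ℕ := code x.k x.e

theorem cd_inj (hJ : StmINJ) : Function.Injective cd := by
  rintro ⟨k, hk, e⟩ ⟨k', hk', e'⟩ h
  obtain ⟨h1, h2⟩ := hJ k k' e e' hk hk' (fun n => congrFun h n)
  subst h1; subst h2; rfl

/-- Continuity of functions depending on finitely many coordinates. -/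
theorem cont_of_agr (F : (ℕ → ℕ) → ℕ) (N : ℕ) (h : ∀ c d, Agr N c d → F c = F d) : Continuous F := by
  have h1 : F = (fun v : Fin N → ℕ => F (fun s => if hs : s < N then v ⟨s, hs⟩ else 0)) ∘
      (fun c : ℕ → ℕ => fun s : Fin N => c s) := by
    funext c
    apply h
    intro s hs
    simp [hs]
  rw [h1]
  apply Continuous.comp
  · exact continuous_of_discreteTopology
  · exact continuous_pi (fun s => continuous_apply _)

theorem letter_lt (c : ℕ → ℕ) (l b : ℕ) : letter c l b < 3 := by
  unfold letter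
  split_ifs <;> omega

def cls (k : ℕ → ℕ) (t : List Bool) : ℕ := if t = [] then 0 else idx k t + 1

theorem cls_lt (k : ℕ → ℕ) (t : List Bool) : cls k t < 4 := by
  unfold cls
  split_ifs
  · omega
  · have := letter_lt (raw k t) (lv (t.length - 1)) (raw k t (lv (t.length - 1)) % 2)
    unfold idx
    omega

theorem cont_cls (hR : StmRHO) (hC : StmCON) (t : List Bool) : Continuous (fun k : ℕ → ℕ => cls k t) := by
  unfold cls
  split_ifs
  · exact continuous_const
  · have h1 : Continuous (fun k : ℕ → ℕ => raw k t) := by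
      have h2 : (fun k : ℕ → ℕ => raw k t) = fun k n => (Nat.unpair (code k t n)).2 := by
        funext k n
        unfold code
        split_ifs <;> simp
      rw [h2]
      refine continuous_pi (fun n => ?_)
      have h3 : Continuous (fun k : ℕ → ℕ => code k t n) := (continuous_apply n).comp (hC t)
      exact (continuous_of_discreteTopology (f := fun m : ℕ => (Nat.unpair m).2)).comp h3
    have h4 : Continuous (fun c : ℕ → ℕ => letter c (lv (t.length - 1)) (c (lv (t.length - 1)) % 2)) := by
      apply cont_of_agr _ (lv (t.length - 1) + 1)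
      intro c d hcd
      have h5 : mis c (lv (t.length - 1)) = mis d (lv (t.length - 1)) :=
        hR.2.2.1 c d _ (fun s hs => hcd s (by omega))
      have h6 : c (lv (t.length - 1)) = d (lv (t.length - 1)) := hcd _ (by omega)
      unfold letter
      rw [h5, h6]
    have h7 : Continuous (fun k : ℕ → ℕ => idx k t) := h4.comp h1
    exact (continuous_of_discreteTopology (f := fun m : ℕ => m + 1)).comp h7

theorem t_FIN (hR : StmRHO) (hMET : StmMET) (hIso : StmISO) (hJ : StmINJ) (hC : StmCON) (hK : StmCPT) :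
    ¬ (∀ (X : Type) [MetricSpace X] [CompactSpace X] [Nonempty X]
      [MeasurableSpace X] [BorelSpace X],
      ¬ ∃ (n m : ℕ) (A C : Fin n → Set X) (B D : Fin m → Set X)
          (f : Fin n → X → X) (g : Fin m → X → X),
        1 ≤ n ∧ 1 ≤ m ∧
        (∀ i j : Fin n, i ≠ j → Disjoint (A i) (A j)) ∧
        (∀ i j : Fin m, i ≠ j → Disjoint (B i) (B j)) ∧
        (∀ (i : Fin n) (j : Fin m), Disjoint (A i) (B j)) ∧
        (∀ i : Fin n, MeasurableSet (A i)) ∧
        (∀ j : Fin m, MeasurableSet (B j)) ∧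
        (∀ i : Fin n, Set.BijOn (f i) (A i) (C i) ∧
          ∀ x ∈ A i, ∀ y ∈ A i, dist (f i x) (f i y) = dist x y) ∧
        (∀ j : Fin m, Set.BijOn (g j) (B j) (D j) ∧
          ∀ x ∈ B j, ∀ y ∈ B j, dist (g j x) (g j y) = dist x y) ∧
        (⋃ i, C i) = Set.univ ∧
        (⋃ j, D j) = Set.univ) := by
  intro H
  letI m0 : MetricSpace (ℕ → ℕ) := PiNat.metricSpaceNatNat
  letI m1 : MetricSpace XX := MetricSpace.induced cd (cd_inj hJ) m0
  have hind : Topology.IsInducing cd := ⟨rfl⟩
  haveI c1 : CompactSpace XX := by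
    refine ⟨?_⟩
    rw [hind.isCompact_iff]
    convert hK.2.2
    ext x
    constructor
    · rintro ⟨y, -, rfl⟩
      exact ⟨y.k, y.hk, y.e, rfl⟩
    · rintro ⟨k, hk, e, rfl⟩
      exact ⟨⟨k, hk, e⟩, trivial, rfl⟩
  haveI n1 : Nonempty XX := by
    obtain ⟨k, hk⟩ := hK.2.1
    exact ⟨⟨k, hk, []⟩⟩
  letI b1 : MeasurableSpace XX := borel XX
  haveI b2 : BorelSpace XX := ⟨rfl⟩
  haveI ck : CompactSpace KK := isCompact_iff_compactSpace.1 hK.1
  have hg : ∀ t : List Bool, Continuous (fun k : KK => (⟨k.1, k.2, t⟩ : XX)) := by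
    intro t
    rw [hind.continuous_iff]
    exact (hC t).comp continuous_subtype_val
  apply H XX
  let P : Bool → Fin 4 → Set XX := fun a i => {x | ∃ t, x.e = a :: t ∧ cls x.k t = i}
  let C : Fin 4 → Set XX := fun i => {x | cls x.k x.e = i}
  let τ : XX → XX := fun x => ⟨x.k, x.hk, x.e.tail⟩
  have hmeas : ∀ a i, MeasurableSet (P a i) := by
    intro a i
    have h1 : P a i = ⋃ t : List Bool, (fun k : KK => (⟨k.1, k.2, a :: t⟩ : XX)) ''
        {k : KK | cls k.1 t = i} := by
      ext x
      simp only [P, Set.mem_setOf_eq, Set.mem_iUnion, Set.mem_image]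
      constructor
      · rintro ⟨t, h1, h2⟩
        refine ⟨t, ⟨x.k, x.hk⟩, h2, ?_⟩
        cases x
        simp only at h1
        subst h1
        rfl
      · rintro ⟨t, k, h1, rfl⟩
        exact ⟨t, rfl, h1⟩
    rw [h1]
    refine MeasurableSet.iUnion (fun t => ?_)
    apply IsClosed.measurableSet
    apply IsCompact.isClosed
    apply IsCompact.image _ (hg (a :: t))
    apply IsClosed.isCompact
    have h2 : Continuous (fun k : KK => cls k.1 t) := (cont_cls hR hC t).comp continuous_subtype_val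
    exact isClosed_singleton.preimage h2
  have hbij : ∀ a i, Set.BijOn τ (P a i) (C i) := by
    intro a i
    refine ⟨?_, ?_, ?_⟩
    · rintro x ⟨t, h1, h2⟩
      show cls x.k x.e.tail = i
      rw [h1]; exact h2
    · rintro x ⟨t, h1, h2⟩ y ⟨t', h1', h2'⟩ hxy
      cases x; cases y
      simp only [τ, XX.mk.injEq] at hxy
      simp only at h1 h1'
      subst h1; subst h1'
      obtain ⟨h3, h4⟩ := hxy
      simp only [List.tail_cons] at h4
      subst h3; subst h4; rfl
    · intro x hx
      exact ⟨⟨x.k, x.hk, a :: x.e⟩, ⟨x.e, rfl, hx⟩, rfl⟩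
  have hiso : ∀ a i, ∀ x ∈ P a i, ∀ y ∈ P a i, dist (τ x) (τ y) = dist x y := by
    rintro a i x ⟨t, h1, h2⟩ y ⟨t', h1', h2'⟩
    show dist (cd (τ x)) (cd (τ y)) = dist (cd x) (cd y)
    apply hMET
    intro n
    simp only [cd, τ]
    rw [h1, h1']
    simp only [List.tail_cons]
    by_cases ht : t = []
    · have h0 : (i : ℕ) = 0 := by rw [← h2, ht]; simp [cls]
      have ht' : t' = [] := by
        by_contra hne
        rw [h0] at h2'
        simp [cls, hne] at h2'
      subst ht; subst ht'
      exact (hIso.1 x.k y.k a n).symm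
    · have ht' : t' ≠ [] := by
        rintro rfl
        have h3 : cls x.k t = cls y.k [] := by rw [h2, h2']
        simp [cls, ht] at h3
      refine (hIso.2 x.k y.k t t' a x.hk y.hk ht ht' ?_ n).symm
      have h3 : cls x.k t = cls y.k t' := by rw [h2, h2']
      simpa [cls, ht, ht'] using h3
  have hdis : ∀ a (i j : Fin 4), i ≠ j → Disjoint (P a i) (P a j) := by
    intro a i j hij
    rw [Set.disjoint_left]
    rintro x ⟨t, h1, h2⟩ ⟨t', h1', h2'⟩
    rw [h1] at h1'
    have h3 : t = t' := (List.cons.inj h1').2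
    subst h3
    exact hij (Fin.ext (h2.symm.trans h2'))
  have hcov : (⋃ i, C i) = Set.univ := by
    apply Set.eq_univ_of_forall
    intro x
    exact Set.mem_iUnion.2 ⟨⟨cls x.k x.e, cls_lt _ _⟩, rfl⟩
  refine ⟨4, 4, P false, C, P true, C, fun _ => τ, fun _ => τ, by norm_num, by norm_num,
    hdis false, hdis true, ?_, hmeas false, hmeas true,
    fun i => ⟨hbij false i, hiso false i⟩, fun i => ⟨hbij true i, hiso true i⟩, hcov, hcov⟩
  intro i j
  rw [Set.disjoint_left]
  rintro x ⟨t, h1, h2⟩ ⟨t', h1', h2'⟩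
  rw [h1] at h1'
  exact absurd (List.cons.inj h1').1 (by decide)

end Pool.Agent.R995.BU
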