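import Pool.Agent.R995.BU.Defs

set_option autoImplicit false

namespace Pool.Agent.R995.BU

/-- (RHO) `rho` is bounded, depends only on the prefix; `mis` is compatible. -/
def StmRHO : Prop :=
  (∀ (c : ℕ → ℕ) (n : ℕ), rho c n < 2 ^ n) ∧
  (∀ (c d : ℕ → ℕ) (n : ℕ), Agr n c d → rho c n = rho d n) ∧
  (∀ (c d : ℕ → ℕ) (n : ℕ), Agr n c d → mis c n = mis d n) ∧
  (∀ (c : ℕ → ℕ) (n : ℕ), mis c n = 3 ↔ rho c n = 0) ∧
  (∀ (c : ℕ → ℕ) (m n : ℕ), m ≤ n → rho c m ≤ rho c n)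

/-- (PI) the injection `pii i n` of the complement of the missing zone. -/
def StmPI : Prop :=
  (∀ i n j : ℕ, pii i n j < 7 * 2 ^ n) ∧
  (∀ i n j j' : ℕ, i < 3 → j < 8 * 2 ^ n → j' < 8 * 2 ^ n →
    ¬ (i * 2 ^ n ≤ j ∧ j < (i + 1) * 2 ^ n) → ¬ (i * 2 ^ n ≤ j' ∧ j' < (i + 1) * 2 ^ n) →
    pii i n j = pii i n j' → j = j') ∧
  (∀ i n j : ℕ, i < 3 → j < 3 * 2 ^ n →
    ¬ (i * 2 ^ n ≤ j ∧ j < (i + 1) * 2 ^ n) → 3 * 2 ^ n ≤ pii i n j)

/-- (AV) the letter `i` maps nodes of `K` to nodes of `K`, never to a last child. -/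
def StmAV : Prop :=
  ∀ (i l : ℕ) (c : ℕ → ℕ), i < 3 → Val l c → Av i l c →
    ∀ n < l, A i c n < L n - rho (A i c) n - 1

/-- (AI) the letter `i` is an isometry. -/
def StmAI : Prop :=
  ∀ (i l : ℕ) (c d : ℕ → ℕ), i < 3 → Val l c → Val l d → Av i l c → Av i l d →
    ∀ n ≤ l, (Agr n (A i c) (A i d) ↔ Agr n c d)

/-- (LET) the letters `letter c l 0 ≠ letter c l 1` are available. -/
def StmLET : Prop :=
  ∀ (l : ℕ) (c : ℕ → ℕ), Val l c →
    (∀ b, letter c l b < 3) ∧ (∀ b, Av (letter c l b) l c) ∧ letter c l 0 ≠ letter c l 1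

/-- (PAR) the parameters. -/
def StmPAR : Prop :=
  (∀ m, bd m (lv m) ≤ 1 → lv (m + 1) = lv m + 1) ∧
  (∀ m, ¬ bd m (lv m) ≤ 1 → lv (m + 1) = lv m ∧ bd (m + 1) (lv m) = (bd m (lv m) + 1) / 2) ∧
  (∀ m, bd (m + 1) (lv m + 1) = 6 * bd m (lv m + 1)) ∧
  (∀ m n, lv m + 1 < n → bd (m + 1) n = bd m n) ∧
  (∀ N, ∃ m₀, ∀ m, m₀ ≤ m → N ≤ lv m) ∧
  (∀ m m', m < m' → lv m = lv m' → ¬ bd m (lv m) ≤ 1) ∧
  (∀ m m', m ≤ m' → lv m ≤ lv m')

/-- (INV) the invariants of the raw sequences. -/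
def StmINV : Prop :=
  ∀ (k : ℕ → ℕ) (e : List Bool), k ∈ KK → e ≠ [] →
    Val (lv (e.length - 1)) (raw k e) ∧
    ∀ n, lv (e.length - 1) ≤ n → raw k e n < bd (e.length - 1) n

/-- (ISO) one step is an isometry on the pieces. -/
def StmISO : Prop :=
  (∀ (k k' : ℕ → ℕ) (a : Bool), ∀ n, (Agr n (code k [a]) (code k' [a]) ↔ Agr n (code k []) (code k' []))) ∧
  (∀ (k k' : ℕ → ℕ) (e e' : List Bool) (a : Bool), k ∈ KK → k' ∈ KK → e ≠ [] → e' ≠ [] →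
    idx k e = idx k' e' →
    ∀ n, (Agr n (code k (a :: e)) (code k' (a :: e')) ↔ Agr n (code k e) (code k' e')))

/-- (ISOA) the case of words of the same length. -/
def StmISOA : Prop :=
  ∀ (k k' : ℕ → ℕ) (e e' : List Bool) (a : Bool), k ∈ KK → k' ∈ KK → e ≠ [] → e' ≠ [] →
    e.length = e'.length → idx k e = idx k' e' →
    ∀ n, (Agr n (code k (a :: e)) (code k' (a :: e')) ↔ Agr n (code k e) (code k' e'))

/-- (ISOB) the case of words of different lengths. -/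
def StmISOB : Prop :=
  ∀ (k k' : ℕ → ℕ) (e e' : List Bool) (a : Bool), k ∈ KK → k' ∈ KK → e ≠ [] → e' ≠ [] →
    e.length < e'.length → idx k e = idx k' e' →
    ∀ n, (Agr n (code k (a :: e)) (code k' (a :: e')) ↔ Agr n (code k e) (code k' e'))

/-- (INJ) the code is injective. -/
def StmINJ : Prop :=
  ∀ (k k' : ℕ → ℕ) (e e' : List Bool), k ∈ KK → k' ∈ KK →
    (∀ n, code k e n = code k' e' n) → k = k' ∧ e = e'

/-- (CON) for fixed `e`, every entry of the code depends continuously on `k`. -/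
def StmCON : Prop :=
  ∀ e : List Bool, Continuous (fun k : ℕ → ℕ => code k e)

/-- (CPT) the set of all codes is compact; `KK` is compact and nonempty. -/
def StmCPT : Prop :=
  IsCompact KK ∧ KK.Nonempty ∧
  IsCompact {x : ℕ → ℕ | ∃ k ∈ KK, ∃ e : List Bool, x = code k e}

/-- (MET) equal agreement gives equal distances in the standard metric of `ℕ → ℕ`. -/
def StmMET : Prop :=
  letI := PiNat.metricSpaceNatNat
  ∀ x y x' y' : ℕ → ℕ, (∀ n, (Agr n x y ↔ Agr n x' y')) → dist x y = dist x' y'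

end Pool.Agent.R995.BU
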